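import Mathlib
import Pool.Agent.Q8.FI.Cnt

/-!
# The ranks of the elliptic curves over `ℚ` with a cyclic 4-isogeny

The elliptic curves `y² = x³ + A x + B` over `ℚ` with a rational point `(t, 0)` of order two such that
`3 t² + A` is a square, ordered by height. (The points `P` with `2 P = (t, 0)` have
`x(P) = t ± √(3 t² + A)`, so these are the curves with a rational cyclic subgroup of order four.) The
number of these curves of height at most `H` has order of magnitude `H ^ (1/3)`, and the average of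
`4 ^ rank` over all of them is bounded. In particular the average rank is bounded. The proof passes to
the quotient by `(t, 0)`, which has full rational 2-torsion, and uses the mean values of the library for
these curves; the passage is at most six to one.
-/

set_option autoImplicit false

namespace Pool.Agent.Results.MP_788af2_nt.CyclicFourIsogeny

open Finset Filter Topology

/-- the curve `y² = x³ + A x + B` over `ℚ` -/
def E (c : ℤ × ℤ) : WeierstrassCurve ℚ := ⟨0, 0, 0, (c.1 : ℚ), (c.2 : ℚ)⟩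

/-- the Mordell-Weil rank -/
noncomputable def rank (c : ℤ × ℤ) : ℕ := Module.finrank ℤ (E c).toAffine.Point

open Classical in
/-- The pairs `(A, B)` of integers such that `4 A³ + 27 B² ≠ 0`, there is no prime `p` with
`p⁴ ∣ A` and `p⁶ ∣ B`, the height `max (4 |A|³) (27 B²)` is at most `H`, and there is an integer `t` with
`t³ + A t + B = 0` such that `3 t² + A` is a square. (The bounds `|A|, |B| ≤ H` follow from the bound of
the height. Every elliptic curve over `ℚ` is isomorphic to `E (A, B)` for exactly one pair with the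
first two properties.) -/
noncomputable def Fam (H : ℕ) : Finset (ℤ × ℤ) :=
  ((Icc (-(H : ℤ)) H) ×ˢ (Icc (-(H : ℤ)) H)).filter (fun c : ℤ × ℤ =>
    4 * c.1 ^ 3 + 27 * c.2 ^ 2 ≠ 0 ∧ 4 * |c.1| ^ 3 ≤ H ∧ 27 * c.2 ^ 2 ≤ H ∧
    (∀ p : ℕ, p.Prime → ¬ ((p : ℤ) ^ 4 ∣ c.1 ∧ (p : ℤ) ^ 6 ∣ c.2)) ∧
    ∃ t s : ℤ, t ^ 3 + c.1 * t + c.2 = 0 ∧ 3 * t ^ 2 + c.1 = s ^ 2)

/-- **Theorem.** Consider the elliptic curves `y² = x³ + A x + B` over `ℚ` with a rational point `(t, 0)`
of order two such that `3 t² + A` is a square, ordered by the height `max (4 |A|³) (27 B²)`.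
(1) The number of the curves of height at most `H` is between `c H ^ (1/3)` and `C H ^ (1/3)`, for large
`H`. (2) The average of `4 ^ rank` over the curves of height at most `H` is at most `C`, for all `H`.
(3) So the average rank of the curves of height at most `H` is at most `C`, for all `H`. -/
theorem result :
    (∃ c C : ℝ, 0 < c ∧ ∀ᶠ H : ℕ in atTop, c * (H : ℝ) ^ ((1 : ℝ) / 3) ≤ ((Fam H).card : ℝ) ∧
      ((Fam H).card : ℝ) ≤ C * (H : ℝ) ^ ((1 : ℝ) / 3)) ∧
    (∃ C : ℝ, ∀ H : ℕ, ∑ c ∈ Fam H, (4 : ℝ) ^ rank c ≤ C * (Fam H).card) ∧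
    ∃ C : ℝ, ∀ H : ℕ, (∑ c ∈ Fam H, (rank c : ℝ)) / (Fam H).card ≤ C := by
  obtain ⟨R, hR0, hR⟩ := Pool.Agent.Q8.FI.ratio
  have hF : ∀ H, Fam H = Pool.Agent.Q8.FI.F4 H := fun H => rfl
  have hcmp : ∀ (H : ℕ) (S : Finset (ℤ × ℤ)) (g : ℤ × ℤ → ℝ) (C : ℝ), 0 ≤ C → S ⊆ Fam H →
      ∑ c ∈ S, g c ≤ C * ((Pool.Agent.W307.RT.Cv 2 (Pool.Agent.Q8.FI.KK * H)).card : ℝ) →
      ∑ c ∈ S, g c ≤ C * R * ((Fam H).card : ℝ) := by
    intro H S g C hC hS h
    rcases (Fam H).eq_empty_or_nonempty with he | hne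
    · rw [he] at hS
      rw [subset_empty.1 hS, sum_empty, he]
      simp
    · have h1 := mul_le_mul_of_nonneg_left (hR H hne) hC
      refine h.trans (h1.trans (le_of_eq ?_))
      rw [← hF]
      ring
  have h4 : ∃ C : ℝ, ∀ H : ℕ, ∑ c ∈ Fam H, (4 : ℝ) ^ rank c ≤ C * (Fam H).card := by
    obtain ⟨C, hC0, hC⟩ := Pool.Agent.Q8.FI.avg_up
    exact ⟨C * R, fun H => hcmp H _ _ C hC0 Subset.rfl (hC H)⟩
  refine ⟨?_, h4, ?_⟩
  · obtain ⟨c, C, hc, h⟩ := Pool.Agent.Q8.FI.order
    exact ⟨c, C, hc, h⟩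
  · obtain ⟨C, hC⟩ := h4
    refine ⟨|C|, fun H => div_le_of_le_mul₀ (Nat.cast_nonneg _) (abs_nonneg C) ?_⟩
    have h5 : ∑ c ∈ Fam H, (rank c : ℝ) ≤ ∑ c ∈ Fam H, (4 : ℝ) ^ rank c := by
      refine sum_le_sum fun c _ => ?_
      have h6 : rank c < 4 ^ rank c := Nat.lt_pow_self (by norm_num)
      exact_mod_cast h6.le
    exact h5.trans ((hC H).trans (mul_le_mul_of_nonneg_right (le_abs_self C) (Nat.cast_nonneg _)))

end Pool.Agent.Results.MP_788af2_nt.CyclicFourIsogeny
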