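import Mathlib
import Pool.Agent.Q17.LS.Rn
import Pool.Agent.Q17.LS.Fam

/-!
# Ranks, root numbers and Tate-Shafarevich groups in the family `X_0(4)`, by height

All elliptic curves `E` over `ℚ` with a rational cyclic subgroup of order 4 are ordered by height. For
every `r ≥ 0` a positive proportion of them has the following properties: the rank of `E` plus the
dimension of `Ш(E')[2]` is `r`, where `E'` is the quotient of `E` by a rational point of order two; the
rank of `E` plus the dimension of `(2 Ш(E))[2]` (the 4-rank of `Ш(E)`) is at most `r`; the root number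
is `(-1) ^ r`; and the dimension of `Ш(E)[2]` is near `(3 / 2) log log H`.

The Tate-Shafarevich group is that of `Pool.Agent.TH841.SH.ShaDef`: continuous cocycles of the
absolute Galois group of `ℚ` with values in the points over the algebraic closure, locally trivial at
all the places of `ℚ`, modulo the coboundaries. The condition `Cyclic4 A B` is defined in
`Pool.Agent.Q17.IG.Cyc`: there is a point `P` of order 4 of `y² = x³ + A x + B` over the algebraic
closure of `ℚ` such that `σ P = P` or `σ P = -P` for all automorphisms `σ`.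
-/

set_option autoImplicit false

namespace Pool.Agent.Results.MP_788af2_nt.CyclicFourRootNumbers

open Finset Filter Topology

open Pool.Agent.TH841.SH.D (Sha rk)

open Pool.Agent.Q17.IG (Cyclic4)

/-- the curve `y² = x³ + A x + B`, `c = (A, B)` -/
def E (c : ℤ × ℤ) : WeierstrassCurve ℚ := ⟨0, 0, 0, (c.1 : ℚ), (c.2 : ℚ)⟩

open Classical in
/-- The pairs `(A, B)` of integers such that `4 A³ + 27 B² ≠ 0`, there is no prime `p` with
`p⁴ ∣ A` and `p⁶ ∣ B`, the height `max (4 |A|³) (27 B²)` is at most `H`, and `y² = x³ + A x + B` has a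
rational cyclic subgroup of order 4. (The bounds `|A|, |B| ≤ H` follow from the bound of the height.
Every elliptic curve over `ℚ` is isomorphic to `E` of exactly one pair with the first two
properties.) -/
noncomputable def Fam (H : ℕ) : Finset (ℤ × ℤ) :=
  ((Icc (-(H : ℤ)) H) ×ˢ (Icc (-(H : ℤ)) H)).filter (fun c : ℤ × ℤ =>
    4 * c.1 ^ 3 + 27 * c.2 ^ 2 ≠ 0 ∧ 4 * |c.1| ^ 3 ≤ H ∧ 27 * c.2 ^ 2 ≤ H ∧
    (∀ p : ℕ, p.Prime → ¬ ((p : ℤ) ^ 4 ∣ c.1 ∧ (p : ℤ) ^ 6 ∣ c.2)) ∧ Cyclic4 c.1 c.2)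

/-- `c'` is the quotient of the curve `c` by a rational point `(e, 0)` of order two: the curve `c` is
`y² = (x - e) (x² + e x + q² - 2 e²)`, with `X = x - e` it is `y² = X (X² + 3 e X + q²)`, the quotient by
`(0, 0)` is `Y² = X (X² - 6 e X + 9 e² - 4 q²)`, and with `X = x + 2 e` it is
`Y² = x³ - (3 e² + 4 q²) x + 2 e³ - 8 q² e`; the curve `c'` is this curve, scaled by `u`. -/
def Quotient (c c' : ℤ × ℤ) : Prop :=
  ∃ (e q : ℤ) (u : ℕ), 0 < u ∧ c.1 = q ^ 2 - 3 * e ^ 2 ∧ c.2 = 2 * e ^ 3 - q ^ 2 * e ∧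
    (u : ℤ) ^ 4 * c'.1 = -(3 * e ^ 2 + 4 * q ^ 2) ∧
    (u : ℤ) ^ 6 * c'.2 = 2 * e ^ 3 - 8 * q ^ 2 * e

/-- `a_p = p + 1 - #V(𝔽_p)`, that is `p` minus the number of the affine solutions of the Weierstrass
equation modulo `p`; for a prime of multiplicative reduction this is `1` (split) or `-1`
(non-split) -/
noncomputable def ap (V : WeierstrassCurve ℤ) (p : ℕ) : ℤ :=
  p - Nat.card {z : ZMod p × ZMod p // z.2 ^ 2 + V.a₁ * z.1 * z.2 + V.a₃ * z.2 =
    z.1 ^ 3 + V.a₂ * z.1 ^ 2 + V.a₄ * z.1 + V.a₆}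

/-- the equation with integer coefficients is nonsingular over `ℚ` and at every prime the reduction
is good or multiplicative (then it is a minimal equation) -/
def Semistable (V : WeierstrassCurve ℤ) : Prop :=
  V.Δ ≠ 0 ∧ ∀ p : ℕ, p.Prime → (p : ℤ) ∣ V.Δ → ¬ (p : ℤ) ∣ V.c₄

/-- the conductor of a semistable curve -/
def conductor (V : WeierstrassCurve ℤ) : ℕ := ∏ p ∈ V.Δ.natAbs.primeFactors, p

/-- The root number of a semistable curve: the product of the local root numbers `-1` at infinity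
and `-a_p` at the primes of bad (multiplicative) reduction. -/
noncomputable def wSemi (V : WeierstrassCurve ℤ) : ℤ :=
  -∏ p ∈ V.Δ.natAbs.primeFactors, (-ap V p)

/-- the quadratic twist by `d` of the curve `V` (the curve `y² = x³ + b₂ x² + 8 b₄ x + 16 b₆`) -/
def twist (V : WeierstrassCurve ℤ) (d : ℕ) : WeierstrassCurve ℚ :=
  ⟨0, (d : ℚ) * V.b₂, 0, 8 * (d : ℚ) ^ 2 * V.b₄, 16 * (d : ℚ) ^ 3 * V.b₆⟩

/-- `w` is the root number of `W`, for the quadratic twists `W` of a semistable curve `V` of conductor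
`N` by a positive fundamental discriminant `d ≡ 1` modulo `4` prime to `N` (`d = 1` allowed): it is
`χ_d(-N) w_V`, where `χ_d(-N) = χ_d(N)` is the Jacobi symbol `(N / d)` -/
def HasRootNumber (W : WeierstrassCurve ℚ) (w : ℤ) : Prop :=
  ∃ (V : WeierstrassCurve ℤ) (d : ℕ), Semistable V ∧ Squarefree d ∧ d % 4 = 1 ∧
    d.Coprime V.Δ.natAbs ∧ (∃ C : WeierstrassCurve.VariableChange ℚ, C • W = twist V d) ∧
    w = jacobiSym (conductor V) d * wSemi V

/-- `k` is near `(3 / 2) log log H` -/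
def Near (η : ℝ) (H k : ℕ) : Prop :=
  |(k : ℝ) - 3 / 2 * Real.log (Real.log H)| ≤ η * Real.log (Real.log H)

/-- The curves `E` of the theorem. With the quotient `E'` by a rational point of order two:
`rank E + dim Ш(E')[2] = r` and the root number of `E'` (which is that of `E`) is `(-1) ^ r`; moreover
`rank E + dim (2 Ш(E))[2] ≤ r`, and `dim Ш(E)[2]` is near `(3 / 2) log log H`. -/
def Typ (r : ℕ) (η : ℝ) (H : ℕ) (c : ℤ × ℤ) : Prop :=
  (∃ c' : ℤ × ℤ, Quotient c c' ∧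
    2 ^ rk (E c) * Nat.card {x : Sha (E c') // x + x = 0} = 2 ^ r ∧
    HasRootNumber (E c') ((-1) ^ r)) ∧
  2 ^ rk (E c) * Nat.card {x : Sha (E c) // x + x = 0 ∧ ∃ y, x = y + y} ≤ 2 ^ r ∧
  ∃ k : ℕ, Near η H k ∧ Nat.card {x : Sha (E c) // x + x = 0} = 2 ^ k

/-! ### Proofs -/

lemma Fam_eq : Fam = Pool.Agent.Q17.IG.Fm := by
  classical
  funext H
  unfold Fam Pool.Agent.Q17.IG.Fm
  apply filter_congr
  intro c _
  constructor
  · rintro ⟨h1, h2, h3, h4, h5⟩
    exact ⟨h1, h2, h3, h4, (Pool.Agent.Q17.IG.cyclic4_iff h1).1 h5⟩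
  · rintro ⟨h1, h2, h3, h4, h5⟩
    exact ⟨h1, h2, h3, h4, (Pool.Agent.Q17.IG.cyclic4_iff h1).2 h5⟩

lemma root6 (H : ℕ) : ∃ M : ℝ, 0 ≤ M ∧ M ^ 6 = H ∧ (H : ℝ) ^ ((1 : ℝ) / 3) = M ^ 2 := by
  refine ⟨(H : ℝ) ^ ((1 : ℝ) / 6), by positivity, ?_, ?_⟩
  · rw [← Real.rpow_natCast, ← Real.rpow_mul (Nat.cast_nonneg H)]
    norm_num
  · rw [← Real.rpow_natCast, ← Real.rpow_mul (Nat.cast_nonneg H)]
    norm_num

lemma typ_of {r : ℕ} {η : ℝ} {H : ℕ} {c : ℤ × ℤ}
    (h : Pool.Agent.Q17.IG.Q4 (Pool.Agent.Y667.PA.TPR r) c)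
    (hok : Pool.Agent.Q17.LS.Ok η (H : ℝ) (Pool.Agent.W307.RT.Sh c.1 c.2)) : Typ r η H c := by
  obtain ⟨c', ⟨e, q, u, s, L⟩, -, h1, h2, h3⟩ := Pool.Agent.Q17.LS.rn_of h
  exact ⟨⟨c', ⟨e, q, u, L.hu, L.hc1, L.hc2, L.h1, L.h2⟩, h1, h3.2.2.1⟩, h2, hok⟩

open Classical in
/-- **Theorem.** The number of the elliptic curves over `ℚ` of height at most `H` with a rational
cyclic subgroup of order 4 is between `c H ^ (1/3)` and `C H ^ (1/3)` for large `H`. For every `r ≥ 0`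
there is `δ > 0` such that for every `η > 0` and all large `H` at least a proportion `δ` of these curves
`E` has the following properties. For the quotient `E'` of `E` by a rational point of order two,
`rank E + dim Ш(E')[2] = r` and the root number is `(-1) ^ r`. The rank of `E` plus the dimension of
`(2 Ш(E))[2]` is at most `r`. The dimension of `Ш(E)[2]` differs from `(3 / 2) log log H` by at most
`η log log H`. -/
theorem result :
    (∃ c C : ℝ, 0 < c ∧ ∀ᶠ H : ℕ in atTop, c * (H : ℝ) ^ ((1 : ℝ) / 3) ≤ ((Fam H).card : ℝ) ∧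
      ((Fam H).card : ℝ) ≤ C * (H : ℝ) ^ ((1 : ℝ) / 3)) ∧
    ∀ r : ℕ, ∃ δ : ℝ, 0 < δ ∧ ∀ η : ℝ, 0 < η → ∀ᶠ H : ℕ in atTop,
      δ * ((Fam H).card : ℝ) ≤ (((Fam H).filter (Typ r η H)).card : ℝ) := by
  refine ⟨⟨1 / 39762, 841, by norm_num, ?_⟩, fun r => ?_⟩
  · filter_upwards [eventually_ge_atTop (100 ^ 6)] with H hH
    obtain ⟨M, hM0, hM, hM2⟩ := root6 H
    have h100 : 100 ≤ M := by
      have : (100 : ℝ) ^ 6 ≤ M ^ 6 := by
        rw [hM]
        exact_mod_cast hH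
      exact (pow_le_pow_iff_left₀ (by norm_num) hM0 (by norm_num)).1 this
    rw [hM2, Fam_eq]
    refine ⟨?_, Pool.Agent.Q17.IG.Fm_up H M (by linarith) hM⟩
    obtain ⟨m, hm⟩ : ∃ m : ℕ, m = ⌊M / 6⌋₊ := ⟨_, rfl⟩
    have h1 : (m : ℝ) ≤ M / 6 := by
      rw [hm]
      exact Nat.floor_le (by positivity)
    have h2 : M / 6 < m + 1 := by
      rw [hm]
      exact Nat.lt_floor_add_one _
    have h3 : 16384 * m ^ 6 ≤ H := by
      have h4 : (m : ℝ) ^ 6 ≤ (M / 6) ^ 6 := pow_le_pow_left₀ (Nat.cast_nonneg m) h1 6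
      rw [div_pow, hM] at h4
      have h5 : 16384 * (m : ℝ) ^ 6 ≤ H := by
        have h6 : (0 : ℝ) ≤ H := Nat.cast_nonneg H
        calc 16384 * (m : ℝ) ^ 6 ≤ 16384 * ((H : ℝ) / 6 ^ 6) :=
              mul_le_mul_of_nonneg_left h4 (by norm_num)
          _ ≤ H := by
              rw [← mul_div_assoc, div_le_iff₀ (by norm_num)]
              nlinarith
      exact_mod_cast h5
    have h4 := Pool.Agent.Q17.IG.Fm_low h3
    refine le_trans ?_ h4
    have h5 : M / 8 ≤ m := by linarith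
    have h6 : (M / 8) ^ 2 ≤ (m : ℝ) ^ 2 := pow_le_pow_left₀ (by positivity) h5 2
    have h7 : (M / 8) ^ 2 = M ^ 2 / 64 := by ring
    rw [h7] at h6
    have h8 : 0 ≤ M ^ 2 := by positivity
    linarith
  · obtain ⟨δ, hδ, H0, h⟩ := Pool.Agent.Q17.IG.posH4 (Pool.Agent.Q17.LS.tpr_pos r)
    refine ⟨δ / 2, by positivity, fun η hη => ?_⟩
    obtain ⟨H1, h1⟩ := Pool.Agent.Q17.LS.fam η (δ / 2) hη (by positivity)
    filter_upwards [eventually_ge_atTop H0, eventually_ge_atTop H1] with H hH0 hH1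
    have h2 := h H hH0
    have h3 := h1 H hH1
    rw [← Fam_eq] at h2 h3
    have h4 : (Fam H).filter (Pool.Agent.Q17.IG.Q4 (Pool.Agent.Y667.PA.TPR r)) ⊆
        (Fam H).filter (Typ r η H) ∪ (Fam H).filter (fun c =>
          ¬ Pool.Agent.Q17.LS.Ok η (H : ℝ) (Pool.Agent.W307.RT.Sh c.1 c.2)) := by
      intro c hc
      rw [mem_filter] at hc
      rw [mem_union, mem_filter, mem_filter]
      by_cases hok : Pool.Agent.Q17.LS.Ok η (H : ℝ) (Pool.Agent.W307.RT.Sh c.1 c.2)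
      · exact Or.inl ⟨hc.1, typ_of hc.2 hok⟩
      · exact Or.inr ⟨hc.1, hok⟩
    have h5 := (card_le_card h4).trans (card_union_le _ _)
    have h6 : (((Fam H).filter (Pool.Agent.Q17.IG.Q4 (Pool.Agent.Y667.PA.TPR r))).card : ℝ) ≤
        (((Fam H).filter (Typ r η H)).card : ℝ) + (((Fam H).filter (fun c =>
          ¬ Pool.Agent.Q17.LS.Ok η (H : ℝ) (Pool.Agent.W307.RT.Sh c.1 c.2))).card : ℝ) := by
      exact_mod_cast h5
    linarith

end Pool.Agent.Results.MP_788af2_nt.CyclicFourRootNumbers
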