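import Pool.Agent.Q235.FE.Two
import Pool.Agent.Q28.BP.Gen

/-!
# The truncated ranks of the curves whose coefficients are integers with few changed digits

For an elliptic curve `E` over `ℚ` and `x ≥ 16` put

  `rank_x(E) = log (∏_{p ≤ x} #E(𝔽_p) / p) / log log x`,

the product over the primes of good reduction.  Birch and Swinnerton-Dyer conjectured (in their original papers) that
`rank_x(E)` tends to the rank of `E` if `x → ∞`.  The problem asks whether the average of the rank over the curves
`y² = X³ + A X + B`, ordered by height, tends to `1/2`.  In the library it is known that for almost all curves of height at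
most `H` the truncated ranks are near to `1/2` up to `x = c H^(1/20)`.  Here we prove this for very sparse sets of curves:

1. let `A`, `B` arise from two ARBITRARY integers `N 0`, `N 1` by changing a few digits and possibly the sign; then
  `|rank_x - 1/2| ≤ 4 (log log x)^(-1/6)` for almost all choices of the positions, for all `x` with
  `X₀ ≤ x ≤ exp (c √r)`, `r` the smaller one of the numbers of changed digits;
2. let `A` be ANY integer, and let only `B` arise from an arbitrary integer by changing a few digits; then the same holds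
  with the error term `4 (log log x)^(-1/6) + (∑_{p ∣ A, p ≤ x} 1/p) / log log x`, uniformly in `A`.

`X₀` depends only on the base and the proportion `η` of the exceptions.  See `Pool.Agent.Q235.FE`.
-/

set_option autoImplicit false

namespace Pool.Agent.Results.MP_788af2_nt.FewDigitTruncatedRanks

open scoped Classical
open Finset
open Pool.Agent.Q235.FD (Setting exceptions digit)
open Pool.Agent.Q235.FE (bad bad_mono exceptions_mono)

/-- The number of points, with the point at infinity, of `y² = x³ + A x + B` modulo `p`. -/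
noncomputable def points (A B : ℤ) (p : ℕ) : ℕ :=
  Nat.card {q : ZMod p × ZMod p // q.2 ^ 2 = q.1 ^ 3 + (A : ZMod p) * q.1 + (B : ZMod p)} + 1

/-- `p` is a prime which does not divide `2 Δ`, `Δ = -4 A³ - 27 B²`. -/
def Good (A B : ℤ) (p : ℕ) : Prop := p.Prime ∧ ¬ ((p : ℤ) ∣ 2 * (-4 * A ^ 3 - 27 * B ^ 2))

/-- The product of `#E(𝔽_p) / p` over the good primes `p ≤ x`. -/
noncomputable def product (A B : ℤ) (x : ℕ) : ℝ :=
  ∏ p ∈ (range (x + 1)).filter (Good A B), ((points A B p : ℝ) / p)

/-- The exponent `r` for which the product up to `x` is `(log x) ^ r`. -/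
noncomputable def rankAt (A B : ℤ) (x : ℕ) : ℝ :=
  Real.log (product A B x) / Real.log (Real.log x)

/-- The sum of the reciprocals of the prime divisors `p ≤ x` of `A` (of all primes `p ≤ x`, if `A = 0`). -/
noncomputable def divisorSum (A : ℤ) (x : ℕ) : ℝ :=
  ∑ p ∈ (range (x + 1)).filter (fun p : ℕ => p.Prime ∧ (p : ℤ) ∣ A), 1 / (p : ℝ)

lemma rank_bound {A B : ℤ} {x : ℕ} (hx : 16 ≤ x) {w : ℝ}
    (h : |∑ p ∈ (range (x + 1)).filter Nat.Prime, Pool.Agent.Q28.BP.lg A B p - 1 / 2 * Real.log (Real.log x)| ≤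
      4 * Real.log (Real.log x) ^ (5 / 6 : ℝ) + w) :
    |rankAt A B x - 1 / 2| ≤ 4 * Real.log (Real.log x) ^ (-(1 / 6) : ℝ) + w / Real.log (Real.log x) := by
  have hl : 0 < Real.log (Real.log x) := by
    have := Pool.Agent.Q28.BP.loglog_ge_one hx
    linarith
  have hrank : rankAt A B x - 1 / 2 = (∑ p ∈ (range (x + 1)).filter Nat.Prime, Pool.Agent.Q28.BP.lg A B p -
        1 / 2 * Real.log (Real.log x)) / Real.log (Real.log x) := by
    obtain ⟨_, h2⟩ := Pool.Agent.Q28.BP.log_prod A B x
    have e1 : product A B x = ∏ p ∈ (range (x + 1)).filter (Pool.Agent.W263.BSD.GoodPrime A B),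
        (((Pool.Agent.W263.BSD.pointCount A B p : ℝ) + 1) / p) := by
      unfold product
      refine prod_congr rfl fun p _ => ?_
      unfold points Pool.Agent.W263.BSD.pointCount
      push_cast
      rfl
    unfold rankAt
    rw [e1, h2, sub_div, mul_div_assoc, div_self hl.ne', mul_one]
  rw [hrank, abs_div, abs_of_pos hl, div_le_iff₀ hl]
  refine h.trans (le_of_eq ?_)
  have e : Real.log (Real.log x) ^ (5 / 6 : ℝ) = Real.log (Real.log x) ^ (-(1 / 6) : ℝ) * Real.log (Real.log x) := by
    nth_rewrite 3 [← Real.rpow_one (Real.log (Real.log x))]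
    rw [← Real.rpow_add hl]
    norm_num
  rw [add_mul, div_mul_cancel₀ _ hl.ne', e]
  ring

/-- **The truncated ranks of curves whose coefficients have few changed digits.**  Let `β ≥ 2` be a base.  There is
`c > 0` such that for every `η > 0` there is `X₀` such that

1. for all integers `N 0`, `N 1` with at most `K 0`, `K 1` digits in base `β`, all `r l ≤ K l / 2`, all prescribed new
  digits and all signs `s`, `t` the following holds for all choices of `r l` positions in `N l`, `l = 0, 1`, except for a
  proportion of at most `η`: for the numbers `m 0`, `m 1` obtained and all `x ≥ X₀` with `log x ≤ c √(r l)`, `l = 0, 1`,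
  the truncated rank of `y² = X³ + s (m 0) X + t (m 1)` satisfies `|rank_x - 1/2| ≤ 4 (log log x)^(-1/6)`;
2. for all integers `A`, all integers `N` with at most `K` digits, all `r ≤ K / 2`, all prescribed new digits and all
  signs `t` the following holds for all choices of `r` positions in `N`, except for a proportion of at most `η`: for the
  number `m` obtained and all `x ≥ X₀` with `log x ≤ c √r` the truncated rank of `y² = X³ + A X + t m` satisfies
  `|rank_x - 1/2| ≤ 4 (log log x)^(-1/6) + (∑_{p ∣ A, p ≤ x} 1/p) / log log x`. -/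
theorem result (β : ℕ) (hβ : 2 ≤ β) : ∃ c : ℝ, 0 < c ∧ ∀ η : ℝ, 0 < η → ∃ X₀ : ℕ, 16 ≤ X₀ ∧
    (∀ s t : ℤ, (s = 1 ∨ s = -1) → (t = 1 ∨ t = -1) → ∀ (K r N : Fin 2 → ℕ) (f : Fin 2 → ℕ → ℕ), Setting β K r N f →
      (exceptions β K r N f (fun m => ∀ x : ℕ, X₀ ≤ x → (∀ l, Real.log x ≤ c * Real.sqrt (r l)) →
        |rankAt (s * (m 0 : ℤ)) (t * (m 1 : ℤ)) x - 1 / 2| ≤ 4 * Real.log (Real.log x) ^ (-(1 / 6) : ℝ)) : ℝ) ≤
          η * ∏ l, ((K l).choose (r l) : ℝ)) ∧
    (∀ A t : ℤ, (t = 1 ∨ t = -1) → ∀ (K r N : ℕ) (f : ℕ → ℕ), 2 * r ≤ K → N < β ^ K →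
      (∀ j, f j < β ∧ f j ≠ digit β j N) →
      (bad β K r N f (fun m => ∀ x : ℕ, X₀ ≤ x → Real.log x ≤ c * Real.sqrt r →
        |rankAt A (t * (m : ℤ)) x - 1 / 2| ≤ 4 * Real.log (Real.log x) ^ (-(1 / 6) : ℝ) +
          divisorSum A x / Real.log (Real.log x)) : ℝ) ≤ η * (K.choose r : ℝ)) := by
  obtain ⟨c₁, hc₁, H1⟩ := Pool.Agent.Q235.FE.curves_two β hβ
  obtain ⟨c₂, hc₂, H2⟩ := Pool.Agent.Q235.FE.curves_fixed β hβ
  refine ⟨min c₁ c₂, lt_min hc₁ hc₂, fun η hη => ?_⟩
  obtain ⟨X₁, h1, H1⟩ := H1 η hη
  obtain ⟨X₂, h2, H2⟩ := H2 η hη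
  refine ⟨max X₁ X₂, h1.trans (le_max_left _ _), ?_, ?_⟩
  · intro s t hs ht K r N f hset
    refine le_trans (Nat.cast_le.2 (exceptions_mono β K r N f (fun m hm x hx hxr => ?_))) (H1 s t hs ht K r N f hset)
    have h3 := hm x ((le_max_left _ _).trans hx) (fun l => (hxr l).trans
      (mul_le_mul_of_nonneg_right (min_le_left _ _) (Real.sqrt_nonneg _)))
    have h4 := rank_bound (h1.trans ((le_max_left _ _).trans hx)) (w := 0) (by rw [add_zero]; exact h3)
    rwa [zero_div, add_zero] at h4
  · intro A t ht K r N f hrK hN hf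
    refine le_trans (Nat.cast_le.2 (bad_mono β K r N f (fun m hm x hx hxr => ?_))) (H2 A t ht K r N f hrK hN hf)
    have h3 := hm x ((le_max_right _ _).trans hx) (hxr.trans
      (mul_le_mul_of_nonneg_right (min_le_right _ _) (Real.sqrt_nonneg _)))
    have e : Pool.Agent.Q28.BP.wt A x = divisorSum A x := by
      unfold Pool.Agent.Q28.BP.wt divisorSum
      rw [← sum_filter, filter_filter]
    rw [e] at h3
    exact rank_bound (h1.trans ((le_max_left _ _).trans hx)) h3

end Pool.Agent.Results.MP_788af2_nt.FewDigitTruncatedRanks
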