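import Pool.Agent.Q28.BP.Count

/-!
# The average of the truncated ranks of the elliptic curves over `ℚ` is `1/2`

For an elliptic curve `E` over `ℚ` and `x ≥ 16` put

  `rank_x(E) = log (∏_{p ≤ x} #E(𝔽_p) / p) / log log x`,

the product over the primes of good reduction.  Birch and Swinnerton-Dyer conjectured (in their original
papers) that `rank_x(E)` tends to the rank of `E` if `x → ∞`.  The problem asks whether the average of the
rank over the curves `E_{A,B}`, `(A, B) ∈ 𝓕`, of height at most `X` tends to `1/2`.  We prove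
unconditionally that the average of `rank_x` tends to `1/2`, if `x` tends to infinity at most as fast as
`(X/27)^(1/20)`, and much more: `rank_x` is near to `1/2` in the mean, with an error `O((log log x)^(-1/2))`,
and for `100 %` of the curves it is near to `1/2` simultaneously for all `x` between a constant and
`(X/27)^(1/20)`.  In particular in this range the products of almost all curves are halfway between those
of a curve of rank `0` and of a curve of rank `1`; the two halves, of rank `0` and `1`, which the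
conjecture predicts, cannot be separated by the primes up to a small power of the height.
-/

set_option autoImplicit false

namespace Pool.Agent.Results.MP_788af2_nt.TruncatedRanks

open scoped Classical
open Finset

/-- The family `𝓕`: nonsingular curves for which no prime `p` satisfies `p⁴ ∣ A` and `p⁶ ∣ B`. -/
def IsMinimal (A B : ℤ) : Prop :=
  4 * A ^ 3 + 27 * B ^ 2 ≠ 0 ∧ ∀ p : ℕ, p.Prime → ¬ ((p : ℤ) ^ 4 ∣ A ∧ (p : ℤ) ^ 6 ∣ B)

/-- The pairs `(A, B) ∈ 𝓕` with `max (4 |A|³) (27 B²) ≤ X`. -/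
noncomputable def curves (X : ℕ) : Finset (ℤ × ℤ) :=
  (Icc (-(X : ℤ)) X ×ˢ Icc (-(X : ℤ)) X).filter fun q =>
    max (4 * |q.1| ^ 3) (27 * q.2 ^ 2) ≤ (X : ℤ) ∧ IsMinimal q.1 q.2

/-- The number of points, with the point at infinity, of `y² = x³ + A x + B` modulo `p`. -/
noncomputable def points (A B : ℤ) (p : ℕ) : ℕ :=
  Nat.card {q : ZMod p × ZMod p // q.2 ^ 2 = q.1 ^ 3 + (A : ZMod p) * q.1 + (B : ZMod p)} + 1

/-- `p` is a prime which does not divide `2 Δ`, `Δ = -4 A³ - 27 B²`. -/
def Good (A B : ℤ) (p : ℕ) : Prop := p.Prime ∧ ¬ ((p : ℤ) ∣ 2 * (-4 * A ^ 3 - 27 * B ^ 2))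

/-- The product of `#E(𝔽_p) / p` over the good primes `p ≤ x`. -/
noncomputable def product (A B : ℤ) (x : ℕ) : ℝ :=
  ∏ p ∈ (range (x + 1)).filter (Good A B), ((points A B p : ℝ) / p)

/-- The exponent `r` for which the product up to `x` is `(log x) ^ r`. -/
noncomputable def rankAt (A B : ℤ) (x : ℕ) : ℝ :=
  Real.log (product A B x) / Real.log (Real.log x)

/-- `curves X` has no other members than the pairs of `𝓕` of height at most `X`. -/
theorem mem_curves (X : ℕ) (A B : ℤ) :
    (A, B) ∈ curves X ↔ max (4 * |A| ^ 3) (27 * B ^ 2) ≤ (X : ℤ) ∧ IsMinimal A B := by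
  unfold curves
  rw [mem_filter]
  simp only [mem_product, mem_Icc, and_iff_right_iff_imp]
  rintro ⟨h, _⟩
  have h1 := (le_max_left _ _).trans h
  have h2 := (le_max_right _ _).trans h
  have hA : |A| ≤ (X : ℤ) := by
    rcases eq_or_ne A 0 with rfl | h0
    · simp
    · have h3 : 1 ≤ |A| := Int.one_le_abs h0
      nlinarith [mul_nonneg (sub_nonneg.2 h3) (abs_nonneg A), pow_nonneg (abs_nonneg A) 3,
        mul_nonneg (mul_nonneg (sub_nonneg.2 h3) (abs_nonneg A)) (abs_nonneg A)]
  have hB : |B| ≤ (X : ℤ) := by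
    rcases eq_or_ne B 0 with rfl | h0
    · simp
    · have h3 : 1 ≤ |B| := Int.one_le_abs h0
      have h4 : B ^ 2 = |B| ^ 2 := (sq_abs B).symm
      nlinarith
  rw [abs_le] at hA hB
  exact ⟨hA, hB⟩

/-- **The average of the truncated ranks.**  (1) For every `η > 0` there is `X₀` such that for all `X`, with
at most `η #𝓕(X)` exceptions all the pairs `(A, B) ∈ 𝓕` of height at most `X` satisfy
`|rank_x(A, B) - 1/2| ≤ 3 (log log x)^(-1/6)` for all `x ≥ X₀` with `27 x^20 ≤ X`.  (2) There is `C` such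
that for all `x ≥ 16` and all `X ≥ 27 x^20` the mean of `|rank_x(A, B) - 1/2|` over the pairs
`(A, B) ∈ 𝓕` of height at most `X` is at most `C (log log x)^(-1/2)`. -/
theorem result :
    (∀ η : ℝ, 0 < η → ∃ X₀ : ℕ, 16 ≤ X₀ ∧ ∀ X : ℕ, ∃ 𝓔 ⊆ curves X, (𝓔.card : ℝ) ≤ η * (curves X).card ∧
      ∀ q ∈ curves X, q ∉ 𝓔 → ∀ x : ℕ, X₀ ≤ x → 27 * x ^ 20 ≤ X →
        |rankAt q.1 q.2 x - 1 / 2| ≤ 3 * Real.log (Real.log x) ^ (-(1 / 6) : ℝ)) ∧
    ∃ C : ℝ, ∀ X x : ℕ, 16 ≤ x → 27 * x ^ 20 ≤ X →
      (∑ q ∈ curves X, |rankAt q.1 q.2 x - 1 / 2|) / (curves X).card ≤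
        C * Real.log (Real.log x) ^ (-(1 / 2) : ℝ) := by
  have hFF : ∀ X, curves X = Pool.Agent.Q28.BP.FF X := by
    intro X
    ext ⟨A, B⟩
    unfold curves Pool.Agent.Q28.BP.FF Pool.Agent.Q28.BP.box IsMinimal
    simp only [mem_filter, max_le_iff]
    tauto
  have hL : ∀ x : ℕ, 16 ≤ x → 0 < Real.log (Real.log x) := by
    intro x hx
    have h5 : Real.log 16 ≤ Real.log x := Real.log_le_log (by norm_num) (by exact_mod_cast hx)
    have h6 : (1 : ℝ) < Real.log 16 := by
      rw [Real.lt_log_iff_exp_lt (by norm_num)]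
      have := Real.exp_one_lt_d9
      linarith
    exact Real.log_pos (by linarith)
  have hrank : ∀ (A B : ℤ) (x : ℕ), 16 ≤ x → rankAt A B x - 1 / 2 =
      (∑ p ∈ (range (x + 1)).filter Nat.Prime, Pool.Agent.Q28.BP.lg A B p -
        1 / 2 * Real.log (Real.log x)) / Real.log (Real.log x) := by
    intro A B x hx
    obtain ⟨_, h2⟩ := Pool.Agent.Q28.BP.log_prod A B x
    have e1 : product A B x = ∏ p ∈ (range (x + 1)).filter (Pool.Agent.W263.BSD.GoodPrime A B),
        (((Pool.Agent.W263.BSD.pointCount A B p : ℝ) + 1) / p) := by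
      unfold product
      refine prod_congr rfl fun p _ => ?_
      unfold points Pool.Agent.W263.BSD.pointCount
      push_cast
      rfl
    unfold rankAt
    rw [e1, h2, sub_div, mul_div_assoc, div_self (hL x hx).ne', mul_one]
  constructor
  · intro η hη
    obtain ⟨X₀, hX₀, H⟩ := Pool.Agent.Q28.BP.final_all hη
    refine ⟨X₀, hX₀, fun X => ?_⟩
    obtain ⟨E, hE, hEc, HE⟩ := H X
    rw [← hFF] at hE hEc HE
    refine ⟨E, hE, hEc, fun q hq hne x hx hxX => ?_⟩
    have hl := hL x (hX₀.trans hx)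
    have h1 := HE q hq hne x hx hxX
    rw [hrank _ _ _ (hX₀.trans hx), abs_div, abs_of_pos hl, div_le_iff₀ hl, mul_assoc]
    refine h1.trans (le_of_eq ?_)
    congr 1
    nth_rewrite 3 [← Real.rpow_one (Real.log (Real.log x))]
    rw [← Real.rpow_add hl]
    norm_num
  · obtain ⟨C, hC, H⟩ := Pool.Agent.Q28.BP.final_mean
    refine ⟨C, fun X x hx hxX => ?_⟩
    have hl := hL x hx
    have h1 := H X x hx hxX
    rw [← hFF] at h1
    have h2 : ∑ q ∈ curves X, |rankAt q.1 q.2 x - 1 / 2| = (∑ q ∈ curves X,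
        |∑ p ∈ (range (x + 1)).filter Nat.Prime, Pool.Agent.Q28.BP.lg q.1 q.2 p -
          1 / 2 * Real.log (Real.log x)|) / Real.log (Real.log x) := by
      rw [sum_div]
      refine sum_congr rfl fun q _ => ?_
      rw [hrank _ _ _ hx, abs_div, abs_of_pos hl]
    rw [h2]
    rcases Nat.eq_zero_or_pos (curves X).card with h0 | h0
    · rw [h0]
      simp only [Nat.cast_zero, div_zero]
      positivity
    · have h3 : (0 : ℝ) < (curves X).card := by exact_mod_cast h0
      rw [div_le_iff₀ h3, div_le_iff₀ hl]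
      refine h1.trans (le_of_eq ?_)
      have e : Real.log (Real.log x) ^ (1 / 2 : ℝ) =
          Real.log (Real.log x) ^ (-(1 / 2) : ℝ) * Real.log (Real.log x) := by
        nth_rewrite 3 [← Real.rpow_one (Real.log (Real.log x))]
        rw [← Real.rpow_add hl]
        norm_num
      rw [e]
      ring

end Pool.Agent.Results.MP_788af2_nt.TruncatedRanks
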